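import Pool.Agent.helper4.NF.SpecA

/-!
# Project nf: FAR (the far terms)
-/

set_option autoImplicit false

open Complex MeasureTheory

namespace Pool.Agent.NF

open Pool.Agent.helper84.DM Pool.Agent.helper78.ED Pool.Agent.DH Pool.Agent.ZD

theorem FAR_Icc (f : ℤ → ℝ) (S : ℕ) : ∑ s ∈ Finset.Icc (-(S : ℤ)) S, f s =
    f 0 + ∑ s ∈ Finset.Icc 1 S, (f (s : ℤ) + f (-(s : ℤ))) := by
  induction S with
  | zero => simp
  | succ S ih =>
    have h1 : Finset.Icc (-((S + 1 : ℕ) : ℤ)) ((S + 1 : ℕ) : ℤ) =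
        insert ((S + 1 : ℕ) : ℤ) (insert (-((S + 1 : ℕ) : ℤ)) (Finset.Icc (-(S : ℤ)) S)) := by
      ext x
      simp only [Finset.mem_Icc, Finset.mem_insert]
      push_cast
      constructor
      · intro h
        by_cases h2 : x = (S : ℤ) + 1
        · left; exact h2
        · by_cases h3 : x = -((S : ℤ) + 1)
          · right; left; exact h3
          · right; right; omega
      · intro h
        rcases h with h | h | h
        · omega
        · omega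
        · omega
    have h2 : (-((S + 1 : ℕ) : ℤ)) ∉ Finset.Icc (-(S : ℤ)) S := by
      simp only [Finset.mem_Icc, not_and_or, not_le]
      left; push_cast; omega
    have h3 : ((S + 1 : ℕ) : ℤ) ∉ insert (-((S + 1 : ℕ) : ℤ)) (Finset.Icc (-(S : ℤ)) S) := by
      simp only [Finset.mem_insert, Finset.mem_Icc]
      push_cast
      omega
    rw [h1, Finset.sum_insert h3, Finset.sum_insert h2, ih, Finset.sum_Icc_succ_top (by omega)]
    ring

theorem FAR_MM (f : ℤ → ℝ) (K : ℕ) : ∑ m ∈ MM K, f m =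
    ∑ k ∈ Finset.Icc 1 K, (f (k : ℤ) + f (-(k : ℤ))) := by
  have h1 : (0 : ℤ) ∈ Finset.Icc (-(K : ℤ)) K := by
    simp
  have h2 := Finset.add_sum_erase (Finset.Icc (-(K : ℤ)) K) f h1
  rw [FAR_Icc] at h2
  unfold MM
  linarith

theorem FAR_tel (x : ℝ) (hx : 0 < x) (K : ℕ) :
    ∑ k ∈ Finset.Icc 1 K, 1 / (x + (k : ℝ)) ^ 2 ≤ 1 / x := by
  have h : ∑ k ∈ Finset.Icc 1 K, 1 / (x + (k : ℝ)) ^ 2 ≤ 1 / x - 1 / (x + (K : ℝ)) := by
    induction K with
    | zero => simp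
    | succ K ih =>
      rw [Finset.sum_Icc_succ_top (by omega)]
      have h0 : (0 : ℝ) ≤ K := Nat.cast_nonneg K
      have h1 : 1 / (x + ((K + 1 : ℕ) : ℝ)) ^ 2 ≤
          1 / (x + (K : ℝ)) - 1 / (x + ((K + 1 : ℕ) : ℝ)) := by
        push_cast
        have h2 : 0 < x + (K : ℝ) := by linarith
        have h3 : 0 < x + ((K : ℝ) + 1) := by linarith
        rw [div_sub_div _ _ h2.ne' h3.ne', div_le_div_iff₀ (by positivity) (by positivity)]
        nlinarith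
      linarith
  have h0 : (0 : ℝ) ≤ K := Nat.cast_nonneg K
  have h2 : 0 ≤ 1 / (x + (K : ℝ)) := by positivity
  linarith

theorem FAR_harm (S : ℕ) : ∑ s ∈ Finset.Icc 1 S, 1 / (s : ℝ) ≤ 1 + Real.log S := by
  have h := harmonic_le_one_add_log S
  rw [harmonic_eq_sum_Icc] at h
  push_cast at h
  refine le_trans (le_of_eq ?_) h
  refine Finset.sum_congr rfl (fun s _ => ?_)
  rw [one_div]

theorem FAR_kap_neg (x : ℝ) : kap (-x) = kap x := by
  unfold kap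
  rw [neg_sq]

theorem FAR_kap_nonneg (x : ℝ) : 0 ≤ kap x := by
  unfold kap
  positivity

theorem FAR_kap_le (Λ x y c : ℝ) (hΛ : 0 < Λ) (hy : 0 < y) (hc : 0 < c) (h : y / c ≤ |x|) :
    kap (Λ * x) ≤ c ^ 2 / Λ ^ 2 * (1 / y ^ 2) := by
  unfold kap
  have h1 : (y / c) ^ 2 ≤ x ^ 2 := by
    rw [← sq_abs x]
    exact pow_le_pow_left₀ (by positivity) h 2
  have h2 : c ^ 2 / Λ ^ 2 * (1 / y ^ 2) = 1 / (Λ ^ 2 * (y / c) ^ 2) := by
    field_simp
  rw [h2]
  apply one_div_le_one_div_of_le (by positivity)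
  rw [mul_pow]
  have h3 := mul_le_mul_of_nonneg_left h1 (show 0 ≤ Λ ^ 2 by positivity)
  linarith

theorem FAR_exp (a : ℝ) (ha : |a| ≤ 5) : 1 / 150 ≤ Real.exp a ∧ Real.exp a ≤ 150 := by
  have h5 : Real.exp 5 ≤ 150 := by
    have h1 := Real.exp_one_lt_d9
    have h2 : Real.exp 5 = Real.exp 1 ^ 5 := by
      rw [← Real.exp_nat_mul]
      norm_num
    rw [h2]
    calc Real.exp 1 ^ 5 ≤ (2.7182818286 : ℝ) ^ 5 :=
          pow_le_pow_left₀ (Real.exp_pos _).le h1.le 5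
      _ ≤ 150 := by norm_num
  obtain ⟨h1, h2⟩ := abs_le.1 ha
  constructor
  · have h3 : Real.exp (-5) ≤ Real.exp a := Real.exp_le_exp.2 h1
    have h4 : Real.exp (-5) = 1 / Real.exp 5 := by
      rw [Real.exp_neg, one_div]
    rw [h4] at h3
    refine le_trans ?_ h3
    exact one_div_le_one_div_of_le (Real.exp_pos _) h5
  · exact (Real.exp_le_exp.2 h2).trans h5

/-- one pair `s, k ≥ 1` -/
theorem FAR_pair (N s k : ℕ) (Λ e : ℝ) (hN : 1 ≤ N) (hs : 1 ≤ s) (hk : 1 ≤ k) (hΛ : 0 < Λ)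
    (he1 : 1 / 150 ≤ e) (he2 : e ≤ 150) :
    kap (Λ * ((N : ℝ) * e * s + k)) + kap (Λ * ((N : ℝ) * e * s - k)) ≤
      1100000 / Λ ^ 2 * (1 / ((N : ℝ) * s + k) ^ 2) +
      (if N * s ≤ 400 * k ∧ k ≤ 400 * N * s then kap (Λ * ((N : ℝ) * e * s - k)) else 0) := by
  have hN' : (1 : ℝ) ≤ N := by exact_mod_cast hN
  have hs' : (1 : ℝ) ≤ s := by exact_mod_cast hs
  have hk' : (1 : ℝ) ≤ k := by exact_mod_cast hk
  have hNs : 0 < (N : ℝ) * s := by positivity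
  have e1 : (N : ℝ) * s * (1 / 150) ≤ (N : ℝ) * e * s := by
    have := mul_le_mul_of_nonneg_left he1 hNs.le
    linarith
  have e2 : (N : ℝ) * e * s ≤ (N : ℝ) * s * 150 := by
    have := mul_le_mul_of_nonneg_left he2 hNs.le
    linarith
  have hy : 0 < (N : ℝ) * s + k := by linarith
  have h1 : kap (Λ * ((N : ℝ) * e * s + k)) ≤ 150 ^ 2 / Λ ^ 2 * (1 / ((N : ℝ) * s + k) ^ 2) := by
    apply FAR_kap_le Λ _ _ 150 hΛ hy (by norm_num)
    rw [abs_of_nonneg (by linarith)]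
    linarith
  have hc : 0 ≤ 1 / Λ ^ 2 * (1 / ((N : ℝ) * s + k) ^ 2) := by positivity
  by_cases hnear : N * s ≤ 400 * k ∧ k ≤ 400 * N * s
  · rw [if_pos hnear]
    have h2 : (150 : ℝ) ^ 2 / Λ ^ 2 * (1 / ((N : ℝ) * s + k) ^ 2) ≤
        1100000 / Λ ^ 2 * (1 / ((N : ℝ) * s + k) ^ 2) := by
      have h3 : (150 : ℝ) ^ 2 / Λ ^ 2 * (1 / ((N : ℝ) * s + k) ^ 2) =
          22500 * (1 / Λ ^ 2 * (1 / ((N : ℝ) * s + k) ^ 2)) := by ring
      have h4 : (1100000 : ℝ) / Λ ^ 2 * (1 / ((N : ℝ) * s + k) ^ 2) =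
          1100000 * (1 / Λ ^ 2 * (1 / ((N : ℝ) * s + k) ^ 2)) := by ring
      rw [h3, h4]
      linarith
    linarith
  · rw [if_neg hnear, add_zero]
    have h2 : kap (Λ * ((N : ℝ) * e * s - k)) ≤
        1000 ^ 2 / Λ ^ 2 * (1 / ((N : ℝ) * s + k) ^ 2) := by
      apply FAR_kap_le Λ _ _ 1000 hΛ hy (by norm_num)
      rw [not_and_or, not_le, not_le] at hnear
      rcases hnear with h | h
      · have h' : (400 : ℝ) * k < N * s := by exact_mod_cast h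
        refine le_trans ?_ (le_abs_self _)
        linarith
      · have h' : (400 : ℝ) * N * s < k := by exact_mod_cast h
        rw [abs_sub_comm]
        refine le_trans ?_ (le_abs_self _)
        nlinarith
    have h3 : (150 : ℝ) ^ 2 / Λ ^ 2 * (1 / ((N : ℝ) * s + k) ^ 2) +
        1000 ^ 2 / Λ ^ 2 * (1 / ((N : ℝ) * s + k) ^ 2) =
          1022500 * (1 / Λ ^ 2 * (1 / ((N : ℝ) * s + k) ^ 2)) := by ring
    have h4 : (1100000 : ℝ) / Λ ^ 2 * (1 / ((N : ℝ) * s + k) ^ 2) =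
        1100000 * (1 / Λ ^ 2 * (1 / ((N : ℝ) * s + k) ^ 2)) := by ring
    rw [h4]
    linarith

/-- the inequality for fixed `a` -/
theorem FAR_pt (N S K : ℕ) (Λ a : ℝ) (hN : 1 ≤ N) (hΛ : 0 < Λ) (ha : |a| ≤ 5) :
    ∑ s ∈ Finset.Icc (-(S : ℤ)) S, ∑ k ∈ MM K, kap (Λ * ((N : ℝ) * Real.exp a * s + k)) ≤
      3000000 / Λ ^ 2 * (1 + Real.log S) +
      2 * ∑ s ∈ Finset.Icc 1 S, ∑ k ∈ (Finset.Icc 1 K).filter
        (fun k => N * s ≤ 400 * k ∧ k ≤ 400 * N * s), kap (Λ * ((N : ℝ) * Real.exp a * s - k)) := by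
  obtain ⟨he1, he2⟩ := FAR_exp a ha
  set e : ℝ := Real.exp a with he
  have hN' : (1 : ℝ) ≤ N := by exact_mod_cast hN
  have hlog : 0 ≤ Real.log S := Real.log_natCast_nonneg S
  rw [FAR_Icc]
  have hz : ∑ k ∈ MM K, kap (Λ * ((N : ℝ) * e * ((0 : ℤ) : ℝ) + k)) ≤ 8 / Λ ^ 2 := by
    rw [FAR_MM]
    have h1 : ∀ k ∈ Finset.Icc 1 K, kap (Λ * ((N : ℝ) * e * ((0 : ℤ) : ℝ) + ((k : ℤ) : ℝ))) +
        kap (Λ * ((N : ℝ) * e * ((0 : ℤ) : ℝ) + ((-(k : ℤ) : ℤ) : ℝ))) ≤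
          8 / Λ ^ 2 * (1 / (1 + (k : ℝ)) ^ 2) := by
      intro k hk
      have hk1 : (1 : ℝ) ≤ k := by
        have := (Finset.mem_Icc.1 hk).1
        exact_mod_cast this
      push_cast
      rw [mul_zero, zero_add, zero_add, mul_neg, FAR_kap_neg]
      have h2 := FAR_kap_le Λ (k : ℝ) (1 + (k : ℝ)) 2 hΛ (by linarith) (by norm_num) (by
        rw [abs_of_nonneg (by linarith)]
        linarith)
      have h3 : (8 : ℝ) / Λ ^ 2 * (1 / (1 + (k : ℝ)) ^ 2) =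
          2 * (2 ^ 2 / Λ ^ 2 * (1 / (1 + (k : ℝ)) ^ 2)) := by ring
      rw [h3]
      linarith
    refine (Finset.sum_le_sum h1).trans ?_
    rw [← Finset.mul_sum]
    have h4 := FAR_tel 1 one_pos K
    calc 8 / Λ ^ 2 * ∑ k ∈ Finset.Icc 1 K, 1 / (1 + (k : ℝ)) ^ 2 ≤ 8 / Λ ^ 2 * (1 / 1) :=
          mul_le_mul_of_nonneg_left h4 (by positivity)
      _ = 8 / Λ ^ 2 := by ring
  have hs : ∀ s ∈ Finset.Icc 1 S,
      (∑ k ∈ MM K, kap (Λ * ((N : ℝ) * e * ((s : ℤ) : ℝ) + k)) +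
        ∑ k ∈ MM K, kap (Λ * ((N : ℝ) * e * ((-(s : ℤ) : ℤ) : ℝ) + k))) ≤
      2200000 / Λ ^ 2 * (1 / (s : ℝ)) + 2 * ∑ k ∈ (Finset.Icc 1 K).filter
        (fun k => N * s ≤ 400 * k ∧ k ≤ 400 * N * s), kap (Λ * ((N : ℝ) * e * s - k)) := by
    intro s hs
    have hs1 : 1 ≤ s := (Finset.mem_Icc.1 hs).1
    have hs1' : (1 : ℝ) ≤ s := by exact_mod_cast hs1
    have hNs : 0 < (N : ℝ) * s := by positivity
    rw [FAR_MM, FAR_MM, ← Finset.sum_add_distrib]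
    have h1 : ∀ k ∈ Finset.Icc 1 K,
        (kap (Λ * ((N : ℝ) * e * ((s : ℤ) : ℝ) + ((k : ℤ) : ℝ))) +
          kap (Λ * ((N : ℝ) * e * ((s : ℤ) : ℝ) + ((-(k : ℤ) : ℤ) : ℝ)))) +
        (kap (Λ * ((N : ℝ) * e * ((-(s : ℤ) : ℤ) : ℝ) + ((k : ℤ) : ℝ))) +
          kap (Λ * ((N : ℝ) * e * ((-(s : ℤ) : ℤ) : ℝ) + ((-(k : ℤ) : ℤ) : ℝ)))) ≤
        2200000 / Λ ^ 2 * (1 / ((N : ℝ) * s + k) ^ 2) + 2 *
          (if N * s ≤ 400 * k ∧ k ≤ 400 * N * s then kap (Λ * ((N : ℝ) * e * s - k)) else 0) := by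
      intro k hk
      have hk1 : 1 ≤ k := (Finset.mem_Icc.1 hk).1
      have h2 := FAR_pair N s k Λ e hN hs1 hk1 hΛ he1 he2
      push_cast
      have g1 : Λ * ((N : ℝ) * e * (s : ℝ) + -(k : ℝ)) = Λ * ((N : ℝ) * e * s - k) := by ring
      have g2 : Λ * ((N : ℝ) * e * -(s : ℝ) + (k : ℝ)) = -(Λ * ((N : ℝ) * e * s - k)) := by ring
      have g3 : Λ * ((N : ℝ) * e * -(s : ℝ) + -(k : ℝ)) = -(Λ * ((N : ℝ) * e * s + k)) := by ring
      rw [g1, g2, g3, FAR_kap_neg, FAR_kap_neg]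
      have g4 : (2200000 : ℝ) / Λ ^ 2 * (1 / ((N : ℝ) * s + k) ^ 2) =
          2 * (1100000 / Λ ^ 2 * (1 / ((N : ℝ) * s + k) ^ 2)) := by ring
      rw [g4]
      linarith
    refine (Finset.sum_le_sum h1).trans ?_
    rw [Finset.sum_add_distrib, ← Finset.mul_sum, ← Finset.mul_sum, ← Finset.sum_filter]
    have h5 := FAR_tel ((N : ℝ) * s) hNs K
    have h6 : 1 / ((N : ℝ) * s) ≤ 1 / (s : ℝ) := by
      apply one_div_le_one_div_of_le (by linarith)
      nlinarith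
    have h7 := mul_le_mul_of_nonneg_left (h5.trans h6)
      (show (0 : ℝ) ≤ 2200000 / Λ ^ 2 by positivity)
    linarith
  have hsum := Finset.sum_le_sum hs
  have hsplit : ∑ s ∈ Finset.Icc 1 S, (2200000 / Λ ^ 2 * (1 / (s : ℝ)) +
      2 * ∑ k ∈ (Finset.Icc 1 K).filter
        (fun k => N * s ≤ 400 * k ∧ k ≤ 400 * N * s), kap (Λ * ((N : ℝ) * e * s - k))) =
      2200000 / Λ ^ 2 * ∑ s ∈ Finset.Icc 1 S, (1 / (s : ℝ)) +
      2 * ∑ s ∈ Finset.Icc 1 S, ∑ k ∈ (Finset.Icc 1 K).filter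
        (fun k => N * s ≤ 400 * k ∧ k ≤ 400 * N * s), kap (Λ * ((N : ℝ) * e * s - k)) := by
    rw [Finset.sum_add_distrib, ← Finset.mul_sum, ← Finset.mul_sum]
  rw [hsplit] at hsum
  have hh := FAR_harm S
  have h8 := mul_le_mul_of_nonneg_left hh (show (0 : ℝ) ≤ 2200000 / Λ ^ 2 by positivity)
  have h9 : (8 : ℝ) / Λ ^ 2 + 2200000 / Λ ^ 2 * (1 + Real.log S) ≤
      3000000 / Λ ^ 2 * (1 + Real.log S) := by
    have g1 : (3000000 : ℝ) / Λ ^ 2 * (1 + Real.log S) =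
        8 / Λ ^ 2 + 2200000 / Λ ^ 2 * (1 + Real.log S) +
          (799992 + 800000 * Real.log S) * (1 / Λ ^ 2) := by ring
    rw [g1]
    have g2 : 0 ≤ (799992 + 800000 * Real.log S) * (1 / Λ ^ 2) := by positivity
    linarith
  linarith

theorem FAR : FAR_stmt := by
  refine ⟨3000000, by norm_num, ?_⟩
  intro N S K Λ h hN hΛ hh hh0
  have hkc : ∀ c d : ℝ, Continuous (fun a : ℝ => kap (Λ * ((N : ℝ) * Real.exp a * c + d))) := by
    intro c d
    unfold kap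
    apply Continuous.div continuous_const
    · fun_prop
    · intro a
      positivity
  have hi : ∀ c d : ℝ, IntervalIntegrable
      (fun a : ℝ => h a * kap (Λ * ((N : ℝ) * Real.exp a * c + d))) volume (-5) 5 := fun c d =>
    (hh.mul (hkc c d)).intervalIntegrable _ _
  have hL : ∑ s ∈ Finset.Icc (-(S : ℤ)) S, ∑ k ∈ MM K,
      ∫ a in (-5 : ℝ)..5, h a * kap (Λ * ((N : ℝ) * Real.exp a * s + k)) =
      ∫ a in (-5 : ℝ)..5, h a * ∑ s ∈ Finset.Icc (-(S : ℤ)) S, ∑ k ∈ MM K,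
        kap (Λ * ((N : ℝ) * Real.exp a * s + k)) := by
    have h1 : ∀ s : ℤ, ∑ k ∈ MM K,
        ∫ a in (-5 : ℝ)..5, h a * kap (Λ * ((N : ℝ) * Real.exp a * s + k)) =
        ∫ a in (-5 : ℝ)..5, ∑ k ∈ MM K, h a * kap (Λ * ((N : ℝ) * Real.exp a * s + k)) := by
      intro s
      rw [intervalIntegral.integral_finsetSum (fun (k : ℤ) _ => hi (s : ℝ) (k : ℝ))]
    rw [Finset.sum_congr rfl (fun s _ => h1 s), ← intervalIntegral.integral_finsetSum]
    · congr 1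
      funext a
      rw [Finset.mul_sum]
      exact Finset.sum_congr rfl (fun s _ => (Finset.mul_sum _ _ _).symm)
    · intro s _
      have hcc : Continuous (fun a : ℝ => ∑ k ∈ MM K,
          h a * kap (Λ * ((N : ℝ) * Real.exp a * s + k))) :=
        continuous_finsetSum _ (fun k _ => hh.mul (hkc s k))
      exact hcc.intervalIntegrable _ _
  have hR : ∑ s ∈ Finset.Icc 1 S, ∑ k ∈ (Finset.Icc 1 K).filter
        (fun k => N * s ≤ 400 * k ∧ k ≤ 400 * N * s),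
        ∫ a in (-5 : ℝ)..5, h a * kap (Λ * ((N : ℝ) * Real.exp a * s - k)) =
      ∫ a in (-5 : ℝ)..5, h a * ∑ s ∈ Finset.Icc 1 S, ∑ k ∈ (Finset.Icc 1 K).filter
        (fun k => N * s ≤ 400 * k ∧ k ≤ 400 * N * s),
        kap (Λ * ((N : ℝ) * Real.exp a * s - k)) := by
    have h1 : ∀ s : ℕ, ∑ k ∈ (Finset.Icc 1 K).filter
        (fun k => N * s ≤ 400 * k ∧ k ≤ 400 * N * s),
        ∫ a in (-5 : ℝ)..5, h a * kap (Λ * ((N : ℝ) * Real.exp a * s - k)) =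
        ∫ a in (-5 : ℝ)..5, ∑ k ∈ (Finset.Icc 1 K).filter
        (fun k => N * s ≤ 400 * k ∧ k ≤ 400 * N * s),
          h a * kap (Λ * ((N : ℝ) * Real.exp a * s - k)) := by
      intro s
      rw [intervalIntegral.integral_finsetSum]
      intro k _
      have := hi s (-(k : ℝ))
      simpa only [← sub_eq_add_neg] using this
    rw [Finset.sum_congr rfl (fun s _ => h1 s), ← intervalIntegral.integral_finsetSum]
    · congr 1
      funext a
      rw [Finset.mul_sum]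
      exact Finset.sum_congr rfl (fun s _ => (Finset.mul_sum _ _ _).symm)
    · intro s _
      have hcc : Continuous (fun a : ℝ => ∑ k ∈ (Finset.Icc 1 K).filter
          (fun k => N * s ≤ 400 * k ∧ k ≤ 400 * N * s),
          h a * kap (Λ * ((N : ℝ) * Real.exp a * s - k))) := by
        refine continuous_finsetSum _ (fun k _ => hh.mul ?_)
        have := hkc s (-(k : ℝ))
        simpa only [← sub_eq_add_neg] using this
      exact hcc.intervalIntegrable _ _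
  rw [hL, hR]
  have hc1 : Continuous (fun a : ℝ => ∑ s ∈ Finset.Icc (-(S : ℤ)) S, ∑ k ∈ MM K,
      kap (Λ * ((N : ℝ) * Real.exp a * s + k))) :=
    continuous_finsetSum _ (fun s _ => continuous_finsetSum _ (fun k _ => hkc s k))
  have hc2 : Continuous (fun a : ℝ => ∑ s ∈ Finset.Icc 1 S, ∑ k ∈ (Finset.Icc 1 K).filter
      (fun k => N * s ≤ 400 * k ∧ k ≤ 400 * N * s),
      kap (Λ * ((N : ℝ) * Real.exp a * s - k))) := by
    refine continuous_finsetSum _ (fun s _ => continuous_finsetSum _ (fun k _ => ?_))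
    have := hkc s (-(k : ℝ))
    simpa only [← sub_eq_add_neg] using this
  have hfin : 3000000 / Λ ^ 2 * (1 + Real.log S) * (∫ a in (-5 : ℝ)..5, h a) +
      2 * (∫ a in (-5 : ℝ)..5, h a * ∑ s ∈ Finset.Icc 1 S, ∑ k ∈ (Finset.Icc 1 K).filter
        (fun k => N * s ≤ 400 * k ∧ k ≤ 400 * N * s),
        kap (Λ * ((N : ℝ) * Real.exp a * s - k))) =
      ∫ a in (-5 : ℝ)..5, (3000000 / Λ ^ 2 * (1 + Real.log S) * h a +
        2 * (h a * ∑ s ∈ Finset.Icc 1 S, ∑ k ∈ (Finset.Icc 1 K).filter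
        (fun k => N * s ≤ 400 * k ∧ k ≤ 400 * N * s),
        kap (Λ * ((N : ℝ) * Real.exp a * s - k)))) := by
    rw [intervalIntegral.integral_add, intervalIntegral.integral_const_mul,
      intervalIntegral.integral_const_mul]
    · exact (continuous_const.mul hh).intervalIntegrable _ _
    · exact (continuous_const.mul (hh.mul hc2)).intervalIntegrable _ _
  rw [hfin]
  apply intervalIntegral.integral_mono_on (by norm_num)
  · exact (hh.mul hc1).intervalIntegrable _ _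
  · exact ((continuous_const.mul hh).add (continuous_const.mul (hh.mul hc2))).intervalIntegrable _ _
  · intro a ha
    have ha' : |a| ≤ 5 := abs_le.2 ⟨ha.1, ha.2⟩
    have h1 := mul_le_mul_of_nonneg_left (FAR_pt N S K Λ a hN hΛ ha') (hh0 a)
    calc _ ≤ _ := h1
      _ = _ := by ring

end Pool.Agent.NF
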